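import Pool.Agent.Lib.MP_169ce5_an.Bridge

/-!
The `∂̄`-Neumann operator `N₁` on `(0,1)`-forms of the Hartogs triangle has pure point spectrum.
The definitions are in `Pool/Agent/Lib/MP_169ce5_an/Statement.lean`.
-/

open Pool.Agent.Lib.MP_169ce5_an.Hartogs

namespace Pool.Agent.Results.MP_169ce5_an.PurePoint

/-- On the Hartogs triangle `T` the `∂̄`-Neumann operator `N` on `L²_{0,1}(T)` exists as a bounded
operator and is unique; `L²_{0,1}(T)` has an orthonormal (Hilbert) basis of eigenvectors of `N`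
with positive eigenvalues; the set of eigenvalues is countable and the spectrum of `N` is its
closure; and `μ` is an eigenvalue of `N` exactly when `μ ≠ 0` and `μ⁻¹` is an eigenvalue of `□₀` on
functions or of `□₂` on `(0,2)`-forms. -/
theorem result :
    ∃ N : Form →L[ℂ] Form, IsNeumann1 N ∧ (∀ N', IsNeumann1 N' → N' = N) ∧
      HasEigenbasis N ∧ (eigenvalues N).Countable ∧ spectrum ℂ N = closure (eigenvalues N) ∧
      ∀ μ : ℂ, μ ∈ eigenvalues N ↔ μ ≠ 0 ∧ ∃ f : Fn, f ≠ 0 ∧ (IsEig0 f μ⁻¹ ∨ IsEig2 f μ⁻¹) :=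
  hmain

end Pool.Agent.Results.MP_169ce5_an.PurePoint
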