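import Pool.Agent.Lib.MP_169ce5_an.BridgeEss

/-!
The spectrum of the `∂̄`-Neumann operator `N₁` on `(0,1)`-forms of the Hartogs triangle.
The definitions are in `Pool/Agent/Lib/MP_169ce5_an/Statement.lean` and
`Pool/Agent/Lib/MP_169ce5_an/StatementEss.lean`.
-/

open Pool.Agent.Lib.MP_169ce5_an.Hartogs

namespace Pool.Agent.Results.MP_169ce5_an.Spectrum

/-- On the Hartogs triangle `T` the `∂̄`-Neumann operator `N` on `L²_{0,1}(T)` exists as a bounded
operator and is unique. Its spectrum is pure point, with positive eigenvalues: `L²_{0,1}(T)` has an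
orthonormal (Hilbert) basis of eigenvectors of `N`. The spectrum is the disjoint union of the
essential spectrum, which consists of `0` and of the numbers `4 / j²` and `8 / j²` for the positive
zeros `j` of the Bessel functions `J_n`, `n ≥ 0`, and of a discrete part made of isolated
eigenvalues of finite multiplicity; and `μ` is an eigenvalue of `N` exactly when `μ ≠ 0` and `μ⁻¹`
is an eigenvalue of `□₀` on functions or of `□₂` on `(0,2)`-forms. -/
theorem result :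
    ∃ N : Form →L[ℂ] Form, IsNeumann1 N ∧ (∀ N', IsNeumann1 N' → N' = N) ∧
      HasEigenbasis N ∧
      (∀ l : ℂ, l ∈ spectrum ℂ N ↔ IsEss N l ∨ IsDiscrete N l) ∧
      (∀ l : ℂ, ¬ (IsEss N l ∧ IsDiscrete N l)) ∧
      (∀ l : ℂ, IsEss N l ↔ l = 0 ∨ ∃ (n : ℕ) (j : ℝ), 0 < j ∧ besselJ n j = 0 ∧
        (l = ((4 / j ^ 2 : ℝ) : ℂ) ∨ l = ((8 / j ^ 2 : ℝ) : ℂ))) ∧
      ∀ μ : ℂ, μ ∈ eigenvalues N ↔ μ ≠ 0 ∧ ∃ f : Fn, f ≠ 0 ∧ (IsEig0 f μ⁻¹ ∨ IsEig2 f μ⁻¹) :=
  hspectrum

end Pool.Agent.Results.MP_169ce5_an.Spectrum
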